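import Pool.Agent.EFA.Stmts

/-!
Squad EFA, row CON: a discontinuity codes every r.e. set.
-/

set_option autoImplicit false

open Nat.Partrec (Code)
open Pool.Agent.Helper25TD

namespace Pool.Agent.EFA.H36

/-- a code of the domain of an r.e. set -/
theorem exists_cH {H : ℕ → Prop} (hH : REPred H) :
    ∃ c : Code, ∀ m, H m ↔ (c.eval m).Dom := by
  have h1 : Partrec fun m : ℕ => (Part.assert (H m) fun _ => Part.some ()).map fun _ => (0 : ℕ) :=
    Partrec.map hH (Computable.const 0).to₂
  obtain ⟨c, hc⟩ := Code.exists_code.1 (Partrec.nat_iff.1 h1)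
  refine ⟨c, fun m => ?_⟩
  rw [hc]
  simp [Part.assert]

/-- the graph of a finite set is coded by a number -/
theorem exists_fs : ∀ (N : ℕ) (P : ℕ → Bool), (∀ x, N ≤ x → P x = false) →
    ∃ j : ℕ, ∀ x, Nat.testBit j x = P x := by
  intro N
  induction N with
  | zero =>
    intro P hP
    exact ⟨0, fun x => by rw [Nat.zero_testBit, hP x (Nat.zero_le x)]⟩
  | succ N ih =>
    intro P hP
    obtain ⟨j, hj⟩ := ih (fun x => P (x + 1)) fun x hx => hP (x + 1) (Nat.succ_le_succ hx)
    refine ⟨Nat.bit (P 0) j, fun x => ?_⟩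
    cases x with
    | zero => exact Nat.testBit_bit_zero _ _
    | succ x => rw [Nat.testBit_bit_succ, hj]

/-- the function `f_m` -/
noncomputable def fm (cH : Code) (g : ℕ → ℕ) (n₀ m x : ℕ) : ℕ :=
  cond (decide (n₀ ≤ x) && (Code.evaln x cH m).isSome) (g x) x

theorem fm_computable (cH : Code) {g : ℕ → ℕ} (hg : Computable g) (n₀ : ℕ) :
    Computable fun p : ℕ => fm cH g n₀ p.unpair.1 p.unpair.2 := by
  have h1 : Primrec fun p : ℕ => p.unpair.2 := Primrec.snd.comp Primrec.unpair
  have h0 : Primrec fun p : ℕ => p.unpair.1 := Primrec.fst.comp Primrec.unpair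
  have h2 : Primrec fun p : ℕ => decide (n₀ ≤ p.unpair.2) :=
    (Primrec.nat_le.comp (Primrec.const n₀) h1).decide
  have h3 : Primrec fun p : ℕ => (Code.evaln p.unpair.2 cH p.unpair.1).isSome :=
    Primrec.option_isSome.comp (Code.primrec_evaln.comp
      ((h1.pair (Primrec.const cH)).pair h0))
  have h4 : Primrec fun p : ℕ => (decide (n₀ ≤ p.unpair.2) &&
      (Code.evaln p.unpair.2 cH p.unpair.1).isSome) := Primrec.and.comp h2 h3
  exact Computable.cond h4.to_comp (hg.comp h1.to_comp) h1.to_comp

theorem isSome_mono {cH : Code} {m k k' : ℕ} (h : k ≤ k')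
    (hk : (Code.evaln k cH m).isSome = true) : (Code.evaln k' cH m).isSome = true := by
  obtain ⟨v, hv⟩ := Option.isSome_iff_exists.1 hk
  have := Code.evaln_mono h (show v ∈ Code.evaln k cH m from hv)
  rw [Option.isSome_iff_exists]
  exact ⟨v, this⟩

theorem fm_injective (cH : Code) {g : ℕ → ℕ} (hi : Function.Injective g) (hlt : ∀ x, x < g x)
    (n₀ m : ℕ) : Function.Injective (fm cH g n₀ m) := by
  have key : ∀ x x' : ℕ, (decide (n₀ ≤ x) && (Code.evaln x cH m).isSome) = false →
      (decide (n₀ ≤ x') && (Code.evaln x' cH m).isSome) = true → x = g x' → False := by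
    intro x x' h1 h2 h3
    rw [Bool.and_eq_true, decide_eq_true_iff] at h2
    have h4 : x' < x := h3 ▸ hlt x'
    have h5 := isSome_mono h4.le h2.2
    have h6 : n₀ ≤ x := h2.1.trans h4.le
    simp [h5, h6] at h1
  intro x x' h
  unfold fm at h
  cases h1 : (decide (n₀ ≤ x) && (Code.evaln x cH m).isSome) <;>
    cases h2 : (decide (n₀ ≤ x') && (Code.evaln x' cH m).isSome) <;>
    rw [h1, h2] at h
  · exact h
  · exact (key x x' h1 h2 h).elim
  · exact (key x' x h2 h1 h.symm).elim
  · exact hi h

theorem con : ConStmt := by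
  classical
  intro F hEff Y hY g hg hgi hlt hgY y n₀ hdisc H hH
  obtain ⟨ψ, hψ, hspec⟩ := hEff Y hY
  obtain ⟨cH, hcH⟩ := exists_cH hH
  obtain ⟨c0, hc0⟩ := Code.exists_code.1 (Partrec.nat_iff.1 (fm_computable cH hg n₀).partrec)
  have hev : ∀ m x, (Code.curry c0 m).eval x = Part.some (fm cH g n₀ m x) := by
    intro m x
    rw [Code.eval_curry, hc0]
    simp
  let z : ℕ → Bool := fun m => bo (F fun x => Y (fm cH g n₀ m x)) y
  have hz : ∀ m, ψ (Nat.pair (Encodable.encode (Code.curry c0 m)) y) = Part.some (z m).toNat :=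
    fun m => hspec (Code.curry c0 m) (fm cH g n₀ m) (fm_injective cH hgi hlt n₀ m) (hev m) y
  have hcode : Primrec fun m : ℕ => Nat.pair (Encodable.encode (Code.curry c0 m)) y :=
    Primrec₂.natPair.comp (Primrec.encode.comp
      (Code.primrec₂_curry.comp (Primrec.const c0) Primrec.id)) (Primrec.const y)
  have hTz : TR (bo (F Y)) fun m => (z m).toNat := by
    have h1 : Nat.RecursiveIn {chi (bo (F Y))}
        (fun m => ((Nat.pair (Encodable.encode (Code.curry c0 m)) y : ℕ) : Part ℕ)) :=
      TR.prim hcode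
    refine (Nat.RecursiveIn.comp hψ h1).of_eq fun m => ?_
    exact (Part.bind_some (Nat.pair (Encodable.encode (Code.curry c0 m)) y) ψ).trans (hz m)
  -- the two cases
  have hno : ∀ m, ¬ H m → z m = bo (F Y) y := by
    intro m hm
    have h1 : ∀ x, Code.evaln x cH m = none := by
      intro x
      rw [Option.eq_none_iff_forall_not_mem]
      intro v hv
      exact hm ((hcH m).2 (Part.dom_iff_mem.2 ⟨v, Code.evaln_sound hv⟩))
    have h2 : (fun x => Y (fm cH g n₀ m x)) = Y := by
      funext x
      have : fm cH g n₀ m x = x := by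
        unfold fm
        rw [h1 x]
        simp
      rw [this]
    change bo (F fun x => Y (fm cH g n₀ m x)) y = _
    rw [h2]
  have hyes : ∀ m, H m → z m ≠ bo (F Y) y := by
    intro m hm
    obtain ⟨v, hv⟩ := Part.dom_iff_mem.1 ((hcH m).1 hm)
    obtain ⟨k, hk⟩ := Code.evaln_complete.1 hv
    have hks : (Code.evaln k cH m).isSome = true := Option.isSome_iff_exists.2 ⟨v, hk⟩
    obtain ⟨j, hj⟩ := exists_fs (max k n₀) (fun x => bo Y (fm cH g n₀ m x)) (by
      intro x hx
      have h1 := isSome_mono ((le_max_left _ _).trans hx) hks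
      have h2 : n₀ ≤ x := (le_max_right _ _).trans hx
      have h3 : fm cH g n₀ m x = g x := by
        unfold fm
        simp [h1, h2]
      simp only [bo, decide_eq_false_iff_not]
      rw [h3]
      exact hgY x)
    have h4 : (fun x => Y (fm cH g n₀ m x)) = fs j := by
      funext x
      have h5 := hj x
      simp only [bo] at h5
      rw [fs, h5, decide_eq_true_iff]
    have h6 : ∀ x < n₀, Nat.testBit j x = bo Y x := by
      intro x hx
      rw [hj x]
      have : fm cH g n₀ m x = x := by
        unfold fm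
        have h7 : ¬ n₀ ≤ x := by omega
        simp [h7]
      rw [this]
    change bo (F fun x => Y (fm cH g n₀ m x)) y ≠ _
    rw [h4]
    exact hdisc j h6
  -- conclusion
  have hH' : ∀ m, (bo H m).toNat =
      cond (bo (F Y) y) (1 - (z m).toNat) (z m).toNat := by
    intro m
    by_cases hm : H m
    · have h1 := hyes m hm
      have h2 : bo H m = true := by simp [bo, hm]
      rw [h2]
      cases h3 : z m <;> cases h4 : bo (F Y) y <;> simp [h3, h4] at h1 ⊢
    · have h1 := hno m hm
      have h2 : bo H m = false := by simp [bo, hm]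
      rw [h2]
      cases h3 : z m <;> cases h4 : bo (F Y) y <;> simp [h3, h4] at h1 ⊢
  refine TR.to_le ?_
  have hp : Primrec fun n : ℕ => cond (bo (F Y) y) (1 - n) n :=
    Primrec.cond (Primrec.const _) (Primrec.nat_sub.comp (Primrec.const 1) Primrec.id) Primrec.id
  refine Nat.RecursiveIn.of_eq ((TR.prim hp).comp hTz) fun m => ?_
  simp only []
  rw [hH' m]

end Pool.Agent.EFA.H36
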